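import Pool.Agent.Lib.MP_acafa7_al.F.IfaceG
import Pool.Agent.Lib.MP_acafa7_al.F.H97.QArea
import Pool.Agent.Lib.MP_acafa7_al.MS.Full1
import Pool.Agent.Lib.MP_acafa7_al.MS.H23.DelM

/-! Module QPUSH: deletion of the vertex of `o` in a metric disc. -/

namespace MSG.F82

open Classical

/-- a map with trivial labels -/
def toLZ {D : Type} (M : DMap D) : LMap ℤ D (Equiv.addRight (1 : ℤ)) where
  toDMap := M
  f _ := 0
  γ _ := 0
  h _ := 0
  γι := by simp
  tgt := by simp

theorem free_addRight (x n : ℤ) (h : ((Equiv.addRight (1 : ℤ)) ^ n) x = x) : n = 0 := by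
  have hnat : ∀ (m : ℕ) (y : ℤ), ((Equiv.addRight (1 : ℤ)) ^ m) y = y + m := by
    intro m
    induction m with
    | zero => intro y; simp
    | succ m ih =>
      intro y
      rw [pow_succ, Equiv.Perm.mul_apply, ih]
      simp only [Equiv.coe_addRight]
      push_cast
      ring
  obtain ⟨m, rfl | rfl⟩ := n.eq_nat_or_neg
  · rw [zpow_natCast, hnat] at h
    omega
  · rw [zpow_neg, Equiv.Perm.inv_eq_iff_eq, zpow_natCast, hnat] at h
    omega

/-- the fan of `o` satisfies the hypotheses of `DelV` -/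
theorem fan_facts {D : Type} [Fintype D] {M : DMap D} {R : List D} {ℓ : D → ℝ} {o : D} {k : ℕ}
    {s : ℕ → D} (hMD : IsMD M R ℓ) (hDM : DMk M R ℓ o) (hF : DFan M R ℓ o k s)
    (hloop : ∀ j, j ≤ k → ¬ M.SameV o (M.ι (s j))) :
    M.ι (s 0) ∈ R ∧ (∀ j, j < k → M.φ (s j) ∉ R) ∧
    (∀ j, j < k → M.φ (M.φ (s j)) ∉ R) ∧
    (∀ j, j < k → M.φ (M.φ (M.φ (s j))) = s j) ∧
    (∀ j, j < k → M.φ (M.φ (s j)) = M.ι (s (j + 1))) ∧
    (∀ j j', j ≤ k → j' ≤ k → s j ≠ M.ι (s j')) ∧
    (∀ j j', j < k → j' ≤ k → M.φ (s j) ≠ s j') ∧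
    (∀ j j', j ≤ k → j' < k → M.φ (s j') ≠ M.ι (s j)) := by
  have hcl : ∀ d ∈ R, M.φ d ∈ R := fun d hd => hMD.off.1 d hd
  have hi : M.ι (s 0) ∈ R := H23.face_mem' hMD.face (by rw [hF.zero]; exact hDM.mem)
  have htri : ∀ j, j < k → M.Tri3 (s j) := fun j hj => hMD.off.2 _ (hF.tri j hj)
  have h3 : ∀ j, j < k → M.φ (M.φ (M.φ (s j))) = s j := fun j hj => (htri j hj).1
  have hB2 : ∀ j, j < k → M.φ (M.φ (s j)) ∉ R := by
    intro j hj h
    have := hcl _ h
    rw [h3 j hj] at this
    exact hF.tri j hj this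
  have hB1 : ∀ j, j < k → M.φ (s j) ∉ R := by
    intro j hj h
    exact hB2 j hj (hcl _ h)
  have hsame : ∀ j, j ≤ k → M.SameV o (s j) := fun j hj => (hF.cls _).2 ⟨j, hj, rfl⟩
  have hA : ∀ j j', j ≤ k → j' ≤ k → s j ≠ M.ι (s j') := by
    intro j j' hj hj' h
    have h1 : M.SameV o (M.ι (s j')) := h ▸ hsame j hj
    exact hloop j' hj' h1
  have hnx : ∀ j, j < k → M.φ (M.φ (s j)) = M.ι (s (j + 1)) := fun j hj => by
    rw [hF.next j hj, M.ιι]
  refine ⟨hi, hB1, hB2, h3, hnx, hA, ?_, ?_⟩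
  · intro j j' hj hj' h
    have h1 : M.SameV o (M.ι (s j)) :=
      M.sameV_trans (h ▸ hsame j' hj') (M.sameV_step (s j))
    exact hloop j hj.le h1
  · intro j j' hj hj' h
    have h1 : M.SameV o (M.φ (M.φ (s j'))) := by
      rw [h]
      have := M.sameV_symm (M.sameV_step (M.ι (s j)))
      rw [M.ιι] at this
      exact M.sameV_trans (hsame j hj) this
    obtain ⟨j'', hj'', hjj⟩ := (hF.cls _).1 h1
    exact hA j'' (j' + 1) hj'' (by omega) (hjj.trans (hnx j' hj'))

theorem qpush_st : QPushStatement := by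
  intro D _ M R ℓ o k s hMD hDM hF hk hloop
  obtain ⟨hi, hB1, hB2, h3, hnx, hA, hBn, hCn⟩ := fan_facts hMD hDM hF hloop
  have hcl : ∀ d ∈ R, M.φ d ∈ R := fun d hd => hMD.off.1 d hd
  have hoo : M.φ o ≠ o := hDM.ne
  -- rotation of the face
  obtain ⟨rest, hrot⟩ : ∃ rest, (M.ι (s 0) :: o :: rest).IsRotated R := by
    obtain ⟨l1, l2, hl⟩ := List.append_of_mem hi
    have hr : (M.ι (s 0) :: (l2 ++ l1)).IsRotated R := by
      rw [hl]
      have := List.isRotated_append (l := M.ι (s 0) :: l2) (l' := l1)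
      simpa using this
    have hf : M.IsFace (M.ι (s 0) :: (l2 ++ l1)) := H23.face_isRot hMD.face hr.symm
    rcases hc : l2 ++ l1 with _ | ⟨o', rest⟩
    · rw [hc] at hf
      exfalso
      have h3 := hf.2.2
      simp only [List.map_cons, List.map_nil, List.rotate_singleton, List.cons.injEq,
        and_true] at h3
      rw [hF.zero] at h3
      have h4 := hF.zero
      rw [← h3] at h4
      exact hoo h4
    · rw [hc] at hf hr
      have := (H23.face_eq hf).1
      rw [hF.zero] at this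
      exact ⟨rest, by rw [this]; exact hr⟩
  have hface : M.IsFace (M.ι (s 0) :: o :: rest) := H23.face_isRot hMD.face hrot.symm
  have hmemP : ∀ x, x ∈ R ↔ x = M.ι (s 0) ∨ x = o ∨ x ∈ rest := by
    intro x
    rw [← hrot.mem_iff]
    simp
  obtain ⟨D', fD', M'', q, R', qinj, qrng, faceR, hRmap, -, hout, hlab, hsame, hplanar, -⟩ :=
    a_delV ℤ D (Equiv.addRight (1 : ℤ)) free_addRight (toLZ M) (M.ι (s 0)) o rest k s hk hface
      (by rw [show (toLZ M).ι = M.ι from rfl, M.ιι]) hF.last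
      (fun j hj => ⟨⟨hMD.off.2 _ (hF.tri j hj), by simp [toLZ]⟩, hF.next j hj,
        fun h => hF.tri j hj (by rw [hmemP]; simpa using h)⟩) hF.inj hA hBn hCn
  set M' : DMap D' := M''.toDMap with hM'
  have hsmem : ∀ j, j ≤ k → M.SameV o (s j) := fun j hj => (hF.cls _).2 ⟨j, hj, rfl⟩
  have hout' : ∀ x, x ∉ R' → q (M'.φ x) = M.φ (q x) := fun x hx => (hout x hx).1
  have hι' : ∀ x, q (M'.ι x) = M.ι (q x) := fun x => (hlab x).1
  have hsame' : ∀ x y, M'.SameV x y ↔ M.SameV (q x) (q y) := hsame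
  have hRmem : ∀ x, q x ∈ R → x ∈ R' := by
    intro x hx
    have hr := (qrng (q x)).1 ⟨x, rfl⟩
    rcases (hmemP _).1 hx with h | h | h
    · exact absurd h (hr 0 (by omega)).2
    · exact absurd (h.trans hF.last.symm) (hr k le_rfl).1
    · have : q x ∈ R'.map q := by rw [hRmap]; exact List.mem_append_right _ h
      obtain ⟨y, hy, hyx⟩ := List.mem_map.1 this
      rwa [← qinj hyx]
  have hRcase : ∀ x, x ∈ R' → (∃ j, j < k ∧ q x = M.φ (s j)) ∨ q x ∈ rest := by
    intro x hx
    have : q x ∈ R'.map q := List.mem_map_of_mem hx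
    rw [hRmap] at this
    rcases List.mem_append.1 this with h | h
    · obtain ⟨j, hj, hjx⟩ := List.mem_map.1 h
      exact Or.inl ⟨j, List.mem_range.1 hj, hjx.symm⟩
    · exact Or.inr h
  have hfan : ∀ j, j < k → ∃ y, y ∈ R' ∧ q y = M.φ (s j) := by
    intro j hj
    have h2 : M.φ (s j) ∈ R'.map q := by
      rw [hRmap]
      exact List.mem_append_left _ (List.mem_map.2 ⟨j, List.mem_range.2 hj, rfl⟩)
    exact List.mem_map.1 h2
  have hB' : ∀ x, x ∉ R' → q x ∉ R := fun x hx h => hx (hRmem x h)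
  -- darts outside the big face
  have hφ1 : ∀ x, x ∉ R' → M'.φ x ∉ R' := fun x hx h => hx (H23.face_mem' faceR h)
  have hq2 : ∀ x, x ∉ R' → q (M'.φ (M'.φ x)) = M.φ (M.φ (q x)) := fun x hx => by
    rw [hout' _ (hφ1 x hx), hout' x hx]
  have hoff : M'.Off3 {d | d ∈ R'} := by
    constructor
    · intro d hd
      exact H23.face_mem faceR hd
    · intro d hd
      have hT := hMD.off.2 _ (hB' d hd)
      refine ⟨?_, ?_⟩
      · apply qinj
        rw [hout' _ (hφ1 _ (hφ1 d hd)), hq2 d hd]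
        exact hT.1
      · intro h
        have := congrArg q h
        rw [hout' d hd] at this
        exact hT.2 this
  have hlen : M'.LenOK (fun x => ℓ (q x)) {d | d ∈ R'} := by
    refine ⟨fun d => hMD.lenok.1 _, fun d => ?_, fun d hd => ?_⟩
    · change ℓ (q (M'.ι d)) = ℓ (q d)
      rw [hι' d]; exact hMD.lenok.2.1 _
    · change ℓ (q (M'.φ d)) < ℓ (q d) + ℓ (q (M'.φ (M'.φ d)))
      rw [hq2 d hd, hout' d hd]
      exact hMD.lenok.2.2 _ (hB' d hd)
  -- curvature
  have hφo : M.SameV (M.ι o) (M.φ o) := M.sameV_symm (M.sameV_step o)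
  have hkey : ∀ d, (∀ b, M'.SameV d b → b ∉ R') → ∀ b, M.SameV (q d) b →
      ∃ b', q b' = b := by
    intro d hd b hb
    have hnear : ∀ j, j < k → ¬ M.SameV (q d) (M.ι (s j)) := by
      intro j hj h
      obtain ⟨y, hy, hyx⟩ := hfan j hj
      have h3 : M.SameV (q d) (q y) := by
        rw [hyx]
        exact M.sameV_trans h (M.sameV_symm (M.sameV_step (s j)))
      exact hd y ((hsame' d y).2 h3) hy
    have hlast : ¬ M.SameV (q d) (M.ι o) := by
      intro h
      have h2 : M.SameV (q d) (M.φ o) := M.sameV_trans h hφo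
      have h3 : M.φ o ∈ M.ι (s 0) :: o :: rest := H23.face_mem hface (by simp)
      rcases List.mem_cons.1 h3 with h4 | h4
      · rw [h4] at h2
        exact hnear 0 (by omega) h2
      · rcases List.mem_cons.1 h4 with h5 | h5
        · exact hoo h5
        · have h6 : M.φ o ∈ R'.map q := by rw [hRmap]; exact List.mem_append_right _ h5
          obtain ⟨y, hy, hyx⟩ := List.mem_map.1 h6
          rw [← hyx] at h2
          exact hd y ((hsame' d y).2 h2) hy
    apply (qrng b).2
    intro j hj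
    constructor
    · rintro rfl
      have h2 : M.SameV o (q d) := M.sameV_trans (hsmem j hj) (M.sameV_symm hb)
      obtain ⟨j', hj', hjj⟩ := (hF.cls _).1 h2
      exact ((qrng (q d)).1 ⟨d, rfl⟩ j' hj').1 hjj.symm
    · rintro rfl
      rcases Nat.lt_or_ge j k with hlt | hge
      · exact hnear j hlt hb
      · have : j = k := by omega
        have hb' : M.SameV (q d) (M.ι (s j)) := hb
        rw [this, hF.last] at hb'
        exact hlast hb'
  have hth : ∀ x, x ∉ R' → M'.th (fun x => ℓ (q x)) x = M.th ℓ (q x) := by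
    intro x hx
    change ang (ℓ (q x)) (ℓ (q (M'.φ (M'.φ x)))) (ℓ (q (M'.φ x))) = _
    rw [hout' x hx, hq2 x hx]
    rfl
  have hcurv : ∀ d, (∀ b, M'.SameV d b → b ∉ R') →
      M'.curv (fun x => ℓ (q x)) {d | d ∈ R'} d = M.curv ℓ {d | d ∈ R} (q d) := by
    intro d hd
    unfold DMap.curv
    congr 1
    apply Fintype.sum_of_injective q qinj
    · intro x hx
      rw [if_neg]
      intro h
      obtain ⟨b', hb'⟩ := hkey d hd x h
      exact hx ⟨b', hb'⟩
    · intro x
      by_cases hx : M'.SameV d x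
      · rw [if_pos hx, if_pos ((hsame' d x).1 hx)]
        unfold DMap.wt
        rw [if_neg (show x ∉ {d | d ∈ R'} from hd x hx),
          if_neg (show q x ∉ {d | d ∈ R} from hB' x (hd x hx)), hth x (hd x hx)]
      · rw [if_neg hx, if_neg (fun h => hx ((hsame' d x).2 h))]
  have hMD' : IsMD M' R' (fun x => ℓ (q x)) := by
    refine ⟨hplanar hMD.planar, faceR, hoff, hlen, ?_⟩
    intro d hd
    have hd' : ∀ b, M'.SameV d b → b ∉ R' := fun b hb hbR => hd b hbR hb
    rw [hcurv d hd']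
    apply hMD.npc
    intro b hbR hb
    obtain ⟨b', rfl⟩ := hkey d hd' b hb
    exact hB' b' (hd' b' ((hsame' d b').2 hb)) hbR
  refine ⟨D', fD', M', R', fun x => ℓ (q x), hMD', ?_, ?_, ?_⟩
  · -- number of darts
    refine Fintype.card_lt_of_injective_not_surjective q qinj ?_
    intro hs
    exact ((qrng (s 0)).1 (hs (s 0)) 0 (by omega)).1 rfl
  · -- length of the boundary
    have e : (R'.map fun x => ℓ (q x)) = (R'.map q).map ℓ := by
      rw [List.map_map]
      rfl
    rw [e, hRmap, List.map_append, List.sum_append, List.map_map]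
    have e2 : ((List.range k).map (ℓ ∘ fun j => (toLZ M).φ (s j))).sum =
        ∑ j ∈ Finset.range k, ℓ (M.φ (s j)) := by
      rw [Finset.sum_range, ← List.sum_ofFn, List.ofFn_eq_map]
      congr 1
      rw [← List.map_coe_finRange_eq_range, List.map_map]
      rfl
    rw [e2]
    have e3 : (R.map ℓ).sum = ℓ (M.ι (s 0)) + (ℓ o + (rest.map ℓ).sum) := by
      rw [← (hrot.perm.map ℓ).sum_eq]
      simp
    have e4 : ℓ (M.ι (s 0)) = ℓ (s 0) := hMD.lenok.2.1 _
    rw [e3, e4, hF.last]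
    ring
  · -- area
    let g : D → ℝ := fun d => tarea (ℓ d) (ℓ (M.φ (M.φ d))) (ℓ (M.φ d))
    let e : {x : D' // x ∉ R'} ⊕ (Fin k × Fin 3) → D := Sum.elim (fun x => q x.1)
      (fun p => (⇑M.φ)^[(p.2 : ℕ)] (s p.1))
    have eI : Function.Injective e := by
      have hpair : ∀ (j j' : ℕ) (t t' : ℕ), j < k → j' < k → t < t' → t' < 3 →
          (⇑M.φ)^[t] (s j) ≠ (⇑M.φ)^[t'] (s j') := by
        intro j j' t t' hj hj' ht ht'
        have hc : (t = 0 ∧ t' = 1) ∨ (t = 0 ∧ t' = 2) ∨ (t = 1 ∧ t' = 2) := by omega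
        rcases hc with ⟨rfl, rfl⟩ | ⟨rfl, rfl⟩ | ⟨rfl, rfl⟩
        · intro h
          exact hBn j' j hj' hj.le h.symm
        · intro h
          have h' : s j = M.φ (M.φ (s j')) := h
          rw [hnx j' hj'] at h'
          exact hA j (j' + 1) hj.le (by omega) h'
        · intro h
          have h' : M.φ (s j) = M.φ (M.φ (s j')) := h
          exact hBn j' j hj' hj.le (M.φ.injective h').symm
      have hqp : ∀ (x : D') (j t : ℕ), x ∉ R' → j < k → t < 3 →
          q x ≠ (⇑M.φ)^[t] (s j) := by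
        intro x j t hx hj ht
        have hr := (qrng (q x)).1 ⟨x, rfl⟩
        have hc : t = 0 ∨ t = 1 ∨ t = 2 := by omega
        rcases hc with rfl | rfl | rfl
        · exact (hr j hj.le).1
        · intro h
          obtain ⟨y, hy, hyx⟩ := hfan j hj
          have : q x = q y := by rw [hyx]; exact h
          exact hx (qinj this ▸ hy)
        · intro h
          have h' : q x = M.φ (M.φ (s j)) := h
          rw [hnx j hj] at h'
          exact (hr (j + 1) (by omega)).2 h'
      rintro (⟨x, hx⟩ | ⟨⟨j, hj⟩, ⟨t, ht⟩⟩) (⟨y, hy⟩ | ⟨⟨j', hj'⟩, ⟨t', ht'⟩⟩) h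
      · have : q x = q y := h
        simp [qinj this]
      · exact absurd h (hqp x j' t' hx hj' ht')
      · exact absurd h.symm (hqp y j t hy hj ht)
      · have h' : (⇑M.φ)^[t] (s j) = (⇑M.φ)^[t'] (s j') := h
        rcases lt_trichotomy t t' with hlt | heq | hgt
        · exact absurd h' (hpair j j' t t' hj hj' hlt ht')
        · subst heq
          have := hF.inj j j' hj.le hj'.le ((M.φ.injective.iterate t) h')
          subst this
          rfl
        · exact absurd h'.symm (hpair j' j t' t hj' hj hgt ht)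
    have hsum : ∑ y : {x : D' // x ∉ R'} ⊕ (Fin k × Fin 3), g (e y) =
        ∑ d : D, (if d ∈ R then 0 else g d) := by
      apply Fintype.sum_of_injective e eI
      · intro d hd
        by_contra hne
        have hdR : d ∉ R := fun h => hne (if_pos h)
        apply hd
        by_cases hq : ∃ x, q x = d
        · obtain ⟨x, rfl⟩ := hq
          by_cases hx : x ∈ R'
          · rcases hRcase x hx with ⟨j, hj, hj'⟩ | h
            · exact ⟨Sum.inr (⟨j, hj⟩, ⟨1, by omega⟩), hj'.symm⟩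
            · exact absurd ((hmemP _).2 (Or.inr (Or.inr h))) hdR
          · exact ⟨Sum.inl ⟨x, hx⟩, rfl⟩
        · have h1 : ¬ ∀ j, j ≤ k → d ≠ s j ∧ d ≠ (toLZ M).ι (s j) := fun h => hq ((qrng d).2 h)
          push Not at h1
          obtain ⟨j, hj, hd2⟩ := h1
          by_cases h4 : d = s j
          · have hjk : j < k := by
              rcases Nat.lt_or_ge j k with h | h
              · exact h
              · exfalso
                have : j = k := by omega
                rw [h4, this, hF.last] at hdR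
                exact hdR hDM.mem
            exact ⟨Sum.inr (⟨j, hjk⟩, ⟨0, by omega⟩), h4.symm⟩
          · have h5 : d = M.ι (s j) := hd2 h4
            rcases Nat.eq_zero_or_pos j with h0 | h0
            · exfalso
              rw [h5, h0] at hdR
              exact hdR hi
            · obtain ⟨m, rfl⟩ : ∃ m, j = m + 1 := ⟨j - 1, by omega⟩
              refine ⟨Sum.inr (⟨m, by omega⟩, ⟨2, by omega⟩), ?_⟩
              rw [h5]
              exact hnx m (by omega)
      · rintro (⟨x, hx⟩ | ⟨⟨j, hj⟩, ⟨t, ht⟩⟩)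
        · exact (if_neg (hB' x hx)).symm
        · have hc : t = 0 ∨ t = 1 ∨ t = 2 := by omega
          rcases hc with rfl | rfl | rfl
          · exact (if_neg (hF.tri j hj)).symm
          · exact (if_neg (hB1 j hj)).symm
          · exact (if_neg (hB2 j hj)).symm
    have h1 : M.area3 ℓ R = ∑ y : {x : D' // x ∉ R'} ⊕ (Fin k × Fin 3), g (e y) := hsum.symm
    rw [h1, Fintype.sum_sum_type, Fintype.sum_prod_type]
    have htr : ∀ j, j < k → Tr (ℓ (s j)) (ℓ (s (j + 1))) (ℓ (M.φ (s j))) := by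
      intro j hj
      have l0 := hMD.lenok.2.2 _ (show s j ∉ {d | d ∈ R} from hF.tri j hj)
      have l1 := hMD.lenok.2.2 _ (show M.φ (s j) ∉ {d | d ∈ R} from hB1 j hj)
      have l2 := hMD.lenok.2.2 _ (show M.φ (M.φ (s j)) ∉ {d | d ∈ R} from hB2 j hj)
      rw [h3 j hj] at l1 l2
      rw [hnx j hj, hMD.lenok.2.1] at l0 l1 l2
      exact ⟨hMD.lenok.1 _, hMD.lenok.1 _, hMD.lenok.1 _, by linarith, by linarith,
        by linarith⟩
    congr 1
    · unfold DMap.area3
      rw [← Finset.sum_filter_add_sum_filter_not Finset.univ (fun x : D' => x ∈ R')]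
      rw [Finset.sum_eq_zero (s := Finset.univ.filter (fun x : D' => x ∈ R')) (by
        intro x hx
        rw [if_pos (Finset.mem_filter.1 hx).2]), zero_add]
      rw [Finset.sum_subtype (Finset.univ.filter (fun x : D' => ¬ x ∈ R')) (p := fun x => x ∉ R')
        (by intro x; simp)]
      refine Finset.sum_congr rfl fun x _ => ?_
      obtain ⟨x, hx⟩ := x
      show tarea (ℓ (q x)) (ℓ (M.φ (M.φ (q x)))) (ℓ (M.φ (q x))) = _
      rw [if_neg hx]
      show _ = tarea (ℓ (q x)) (ℓ (q (M'.φ (M'.φ x)))) (ℓ (q (M'.φ x)))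
      rw [hout' x hx, hq2 x hx]
    · rw [Finset.mul_sum, Finset.sum_range]
      refine Finset.sum_congr rfl fun j _ => ?_
      obtain ⟨j, hj⟩ := j
      rw [Fin.sum_univ_three]
      have hq := F97.qarea_st.1
      obtain ⟨a1, -, -⟩ := hq _ _ _ (htr j hj)
      obtain ⟨a2, -, -⟩ := hq (ℓ (s (j + 1))) (ℓ (M.φ (s j))) (ℓ (s j))
        ⟨(htr j hj).py, (htr j hj).pz, (htr j hj).px, by linarith [(htr j hj).hy],
          by linarith [(htr j hj).hz], by linarith [(htr j hj).hx]⟩
      have t0 : g (e (Sum.inr (⟨j, hj⟩, 0))) =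
          tarea (ℓ (s j)) (ℓ (s (j + 1))) (ℓ (M.φ (s j))) := by
        show tarea (ℓ (s j)) (ℓ (M.φ (M.φ (s j)))) (ℓ (M.φ (s j))) = _
        rw [hnx j hj, hMD.lenok.2.1]
      have t1 : g (e (Sum.inr (⟨j, hj⟩, 1))) =
          tarea (ℓ (M.φ (s j))) (ℓ (s j)) (ℓ (s (j + 1))) := by
        show tarea (ℓ (M.φ (s j))) (ℓ (M.φ (M.φ (M.φ (s j))))) (ℓ (M.φ (M.φ (s j)))) = _
        rw [h3 j hj, hnx j hj, hMD.lenok.2.1]
      have t2 : g (e (Sum.inr (⟨j, hj⟩, 2))) =
          tarea (ℓ (s (j + 1))) (ℓ (M.φ (s j))) (ℓ (s j)) := by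
        show tarea (ℓ (M.φ (M.φ (s j)))) (ℓ (M.φ (M.φ (M.φ (M.φ (s j))))))
          (ℓ (M.φ (M.φ (M.φ (s j))))) = _
        rw [h3 j hj, hnx j hj, hMD.lenok.2.1]
      rw [t0, t1, t2, ← a1, ← a2.symm.trans a1.symm]
      ring

end MSG.F82
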